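import Pool.Agent.Helper70.TW.Goals
import Pool.Agent.Helper51.Lang.CAlg

/-!
# Project TW: packet SIMS (simple transcendental extensions)
-/

set_option autoImplicit false

namespace Pool.Agent.Helper38.TW

open MvPolynomial Pool.Agent.Helper70.BU Pool.Agent.Helper70.TW

universe u

theorem mem_deg {F : Type u} [Field F] (k : ℕ) (v : Polynomial F) :
    v ∈ Polynomial.degreeLT F (k + 1) ↔ v.natDegree ≤ k := by
  rw [Polynomial.mem_degreeLT]
  constructor
  · intro h
    by_cases h8 : v = 0
    · rw [h8]; simp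
    · exact Nat.le_of_lt_succ ((Polynomial.natDegree_lt_iff_degree_lt h8).2 h)
  · intro h
    refine lt_of_le_of_lt Polynomial.degree_le_natDegree ?_
    exact_mod_cast Nat.lt_succ_of_le h

/-- The basis of the image of the polynomials of degree less than `n`. -/
noncomputable def bas {F K : Type u} [Field F] [Field K] [Algebra F K]
    (f : Polynomial F →ₗ[F] K) (hf : Function.Injective f) (n : ℕ) :
    Module.Basis (Fin n) F (Submodule.map f (Polynomial.degreeLT F n)) :=
  Module.Basis.ofEquivFun ((Submodule.equivMapOfInjective f hf (Polynomial.degreeLT F n)).symm.trans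
    (Polynomial.degreeLTEquiv F n))

theorem pow_le {F K : Type u} [Field F] [Field K] [Algebra F K] (t : K) (s m : ℕ) :
    (Submodule.map (Polynomial.aeval (R := F) t).toLinearMap (Polynomial.degreeLT F (s + 1))) ^ m ≤
      Submodule.map (Polynomial.aeval (R := F) t).toLinearMap
        (Polynomial.degreeLT F (m * s + 1)) := by
  induction m with
  | zero =>
    rw [pow_zero, Submodule.one_le]
    refine ⟨1, ?_, ?_⟩
    · rw [SetLike.mem_coe, mem_deg]
      simp
    · exact map_one (Polynomial.aeval (R := F) t)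
  | succ m ih =>
    rw [pow_succ, Submodule.mul_le]
    intro x hx y hy
    obtain ⟨v, hv, rfl⟩ := ih hx
    obtain ⟨w, hw, rfl⟩ := hy
    refine ⟨v * w, ?_, ?_⟩
    · rw [SetLike.mem_coe, mem_deg] at hv hw ⊢
      refine Polynomial.natDegree_mul_le.trans ?_
      have : (m + 1) * s = m * s + s := by ring
      omega
    · exact map_mul (Polynomial.aeval (R := F) t) v w

theorem sims : TRF.{u} → SIMS.{u} := by
  intro hT F K _ _ _ t ht hfr ι κ Λ _ _ _ _ _ b α β hc f hf
  classical
  let y : (Σ l : Λ, {d // d ∈ (f l).support}) × Bool → K := fun a =>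
    if a.2 then (coeff a.1.2.1 (f a.1.1)).re else (coeff a.1.2.1 (f a.1.1)).im
  obtain ⟨q, hq, hq'⟩ := Pool.Agent.Helper51.Lang.common_denom t hfr y
  choose p hp using hq'
  obtain ⟨c, hcd⟩ : ∃ c : ℕ, ∀ a, (p a).natDegree ≤ c :=
    ⟨Finset.univ.sup (fun a => (p a).natDegree),
      fun a => Finset.le_sup (f := fun a => (p a).natDegree) (Finset.mem_univ a)⟩
  obtain ⟨s, hs⟩ := hc c
  have hinj : Function.Injective (Polynomial.aeval (R := F) t).toLinearMap :=
    transcendental_iff_injective.1 ht
  have hinj' : Function.Injective ((LinearMap.mulLeft F (Polynomial.aeval t q)⁻¹).comp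
      (Polynomial.aeval (R := F) t).toLinearMap) := by
    intro v w hvw
    apply hinj
    have h1 : (Polynomial.aeval t q)⁻¹ * (Polynomial.aeval (R := F) t).toLinearMap v =
      (Polynomial.aeval t q)⁻¹ * (Polynomial.aeval (R := F) t).toLinearMap w := hvw
    exact mul_left_cancel₀ (inv_ne_zero hq) h1
  have key : ∀ (a : (Σ l : Λ, {d // d ∈ (f l).support}) × Bool),
      ∀ x ∈ (Submodule.map (Polynomial.aeval (R := F) t).toLinearMap
        (Polynomial.degreeLT F (s + 1))) ^ (∑ k, (α a.1.1 k + β a.1.1 k)),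
      y a * x ∈ Submodule.map ((LinearMap.mulLeft F (Polynomial.aeval t q)⁻¹).comp
        (Polynomial.aeval (R := F) t).toLinearMap)
        (Polynomial.degreeLT F ((∑ k, (α a.1.1 k + β a.1.1 k)) * s + c + 1)) := by
    intro a x hx
    obtain ⟨v, hv, rfl⟩ := pow_le t s _ hx
    refine ⟨p a * v, ?_, ?_⟩
    · rw [SetLike.mem_coe, mem_deg] at hv ⊢
      refine Polynomial.natDegree_mul_le.trans ?_
      have := hcd a
      omega
    · have h2 := hp a
      show (Polynomial.aeval t q)⁻¹ * Polynomial.aeval t (p a * v) = y a * Polynomial.aeval t v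
      rw [map_mul, ← h2]
      field_simp
  exact hT F K ι κ Λ b α β f
    (Submodule.map (Polynomial.aeval (R := F) t).toLinearMap (Polynomial.degreeLT F (s + 1)))
    (fun l => Submodule.map ((LinearMap.mulLeft F (Polynomial.aeval t q)⁻¹).comp
        (Polynomial.aeval (R := F) t).toLinearMap)
        (Polynomial.degreeLT F ((∑ k, (α l k + β l k)) * s + c + 1)))
    (s + 1) (fun l => (∑ k, (α l k + β l k)) * s + c + 1)
    (bas _ hinj _) (fun l => bas _ hinj' _) hf
    (fun l d hd x hx => ⟨key (⟨l, ⟨d, hd⟩⟩, true) x hx, key (⟨l, ⟨d, hd⟩⟩, false) x hx⟩) hs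

end Pool.Agent.Helper38.TW
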